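import Mathlib

set_option autoImplicit false

/-! # Large pairwise `ε`-intersecting subfamilies of dense set systems -/

namespace Pool.Agent.Results.MP_cecf76_co.PowerBounds

open Finset

/-! ## The product inequality on the cube -/

theorem two_by_two (t Q a b p q : ℝ) (ht : 1 ≤ t) (hQ : 0 < Q) (ha : 0 ≤ a) (hb : 0 ≤ b)
    (hp : 0 ≤ p) (hq : 0 ≤ q) (h1 : a * p ≤ Q) (h2 : b * q ≤ Q) (h3 : a * q ≤ t * Q)
    (h4 : b * p ≤ t * Q) : (a + b) * (p + q) ≤ (2 + t + 1 / t) * Q := by
  have ht0 : 0 < t := by linarith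
  have h5 : (a * q) * (b * p) ≤ Q * Q := by
    have : (a * q) * (b * p) = (a * p) * (b * q) := by ring
    rw [this]
    exact mul_le_mul h1 h2 (mul_nonneg hb hq) hQ.le
  have hX : 0 ≤ a * q := mul_nonneg ha hq
  have hY : 0 ≤ b * p := mul_nonneg hb hp
  have key : a * q + b * p ≤ (t + 1 / t) * Q := by
    set X := a * q
    set Y := b * p
    have e : (t + 1 / t) * Q = t * Q + Q / t := by ring
    rw [e]
    by_cases hc : X ≤ Q / t
    · linarith
    · push Not at hc
      have hX' : 0 < X := lt_trans (div_pos hQ ht0) hc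
      -- Y ≤ Q² / X, and X + Q²/X ≤ tQ + Q/t
      have hY' : Y ≤ Q * Q / X := by
        rw [le_div_iff₀ hX', mul_comm]; exact h5
      have h6 : X + Q * Q / X ≤ t * Q + Q / t := by
        have h7 : 0 ≤ (t * Q - X) * (X - Q / t) := mul_nonneg (by linarith) (by linarith)
        have h8 : (t * Q - X) * (X - Q / t) = X * (t * Q + Q / t) - X * X - Q * Q := by
          field_simp
          ring
        have h9 : X * X + Q * Q ≤ X * (t * Q + Q / t) := by linarith
        have h10 : X + Q * Q / X = (X * X + Q * Q) / X := by field_simp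
        rw [h10, div_le_iff₀ hX', mul_comm (t * Q + Q / t)]
        exact h9
      linarith
  have : (a + b) * (p + q) = a * p + b * q + (a * q + b * p) := by ring
  rw [this]
  have e2 : (2 + t + 1 / t) * Q = Q + Q + (t + 1 / t) * Q := by ring
  linarith

theorem sum_cons {d : ℕ} (h : (Fin (d + 1) → Bool) → ℝ) :
    ∑ x, h x = ∑ x : Fin d → Bool, h (Fin.cons false x) + ∑ x : Fin d → Bool, h (Fin.cons true x) := by
  rw [← (Fin.consEquiv (fun _ => Bool)).sum_comp h, Fintype.sum_prod_type, Fintype.sum_bool,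
    add_comm]
  rfl

theorem cube_ineq (t : ℝ) (ht : 1 ≤ t) : ∀ (d : ℕ) (h g : (Fin d → Bool) → ℝ),
    (∀ x, 0 ≤ h x) → (∀ x, 0 ≤ g x) →
    (∀ u x, h u * g x ≤ ∏ i, (if u i = x i then 1 else t)) →
    (∑ u, h u) * (∑ x, g x) ≤ (2 + t + 1 / t) ^ d := by
  intro d
  induction d with
  | zero =>
    intro h g _ _ H
    rw [Fintype.sum_unique, Fintype.sum_unique, pow_zero]
    refine (H _ _).trans ?_
    rw [Finset.univ_eq_empty, Finset.prod_empty]
  | succ d ih =>
    intro h g h0 g0 H
    have ht0 : 0 < t := by linarith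
    have hB : 0 < 2 + t + 1 / t := by positivity
    rw [sum_cons h, sum_cons g, pow_succ, mul_comm ((2 + t + 1 / t) ^ d)]
    have hQ : 0 < (2 + t + 1 / t) ^ d := pow_pos hB d
    have H' : ∀ (a b : Bool) (u x : Fin d → Bool),
        h (Fin.cons a u) * g (Fin.cons b x)
          ≤ (if a = b then 1 else t) * ∏ i, (if u i = x i then 1 else t) := by
      intro a b u x
      have := H (Fin.cons a u) (Fin.cons b x)
      rw [Fin.prod_univ_succ] at this
      simpa using this
    apply two_by_two t _ _ _ _ _ ht hQ (Finset.sum_nonneg fun x _ => h0 _)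
      (Finset.sum_nonneg fun x _ => h0 _) (Finset.sum_nonneg fun x _ => g0 _)
      (Finset.sum_nonneg fun x _ => g0 _)
    · apply ih _ _ (fun x => h0 _) (fun x => g0 _)
      intro u x
      simpa using H' false false u x
    · apply ih _ _ (fun x => h0 _) (fun x => g0 _)
      intro u x
      simpa using H' true true u x
    · have := ih (fun u => h (Fin.cons false u)) (fun x => t⁻¹ * g (Fin.cons true x))
        (fun x => h0 _) (fun x => mul_nonneg (inv_nonneg.mpr ht0.le) (g0 _)) (by
          intro u x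
          have h1 := H' false true u x
          simp only [Bool.false_eq_true, if_false] at h1
          calc h (Fin.cons false u) * (t⁻¹ * g (Fin.cons true x))
              = t⁻¹ * (h (Fin.cons false u) * g (Fin.cons true x)) := by ring
            _ ≤ t⁻¹ * (t * ∏ i, (if u i = x i then 1 else t)) :=
                mul_le_mul_of_nonneg_left h1 (inv_nonneg.mpr ht0.le)
            _ = _ := by rw [← mul_assoc, inv_mul_cancel₀ ht0.ne', one_mul])
      rw [← Finset.mul_sum] at this
      calc (∑ x, h (Fin.cons false x)) * ∑ x, g (Fin.cons true x)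
          = t * ((∑ x, h (Fin.cons false x)) * (t⁻¹ * ∑ x, g (Fin.cons true x))) := by
            field_simp
        _ ≤ _ := mul_le_mul_of_nonneg_left this ht0.le
    · have := ih (fun u => h (Fin.cons true u)) (fun x => t⁻¹ * g (Fin.cons false x))
        (fun x => h0 _) (fun x => mul_nonneg (inv_nonneg.mpr ht0.le) (g0 _)) (by
          intro u x
          have h1 := H' true false u x
          simp only [Bool.true_eq_false, if_false] at h1
          calc h (Fin.cons true u) * (t⁻¹ * g (Fin.cons false x))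
              = t⁻¹ * (h (Fin.cons true u) * g (Fin.cons false x)) := by ring
            _ ≤ t⁻¹ * (t * ∏ i, (if u i = x i then 1 else t)) :=
                mul_le_mul_of_nonneg_left h1 (inv_nonneg.mpr ht0.le)
            _ = _ := by rw [← mul_assoc, inv_mul_cancel₀ ht0.ne', one_mul])
      rw [← Finset.mul_sum] at this
      calc (∑ x, h (Fin.cons true x)) * ∑ x, g (Fin.cons false x)
          = t * ((∑ x, h (Fin.cons true x)) * (t⁻¹ * ∑ x, g (Fin.cons false x))) := by
            field_simp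
        _ ≤ _ := mul_le_mul_of_nonneg_left this ht0.le

/-- a family of vectors which pairwise agree in at least `δ d` coordinates is exponentially small -/
theorem family_bound (d : ℕ) (δ : ℝ) (hδ : 0 < δ) (hδ1 : δ ≤ 1) (F : Finset (Fin d → Bool))
    (hF : ∀ u ∈ F, ∀ v ∈ F, u ≠ v → δ * d ≤ ((univ.filter (fun i => u i = v i)).card : ℝ)) :
    (F.card : ℝ) ≤ (2 * Real.exp (-(δ ^ 2 / 2))) ^ d := by
  classical
  set t : ℝ := Real.exp (2 * δ) with htdef
  have ht : 1 ≤ t := Real.one_le_exp (by linarith)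
  have hF' : ∀ u ∈ F, ∀ v ∈ F, δ * d ≤ ((univ.filter (fun i => u i = v i)).card : ℝ) := by
    intro u hu v hv
    by_cases h : u = v
    · subst h
      simp only [Finset.filter_true, Finset.card_univ, Fintype.card_fin]
      nlinarith [Nat.cast_nonneg (α := ℝ) d]
    · exact hF u hu v hv h
  have key := cube_ineq t ht d (fun u => if u ∈ F then 1 else 0)
    (fun x => if (fun i => !x i) ∈ F then Real.exp (2 * δ * (δ * d)) else 0)
    (fun x => by positivity) (fun x => by positivity) (by
      intro u x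
      by_cases h1 : u ∈ F
      · by_cases h2 : (fun i => !x i) ∈ F
        · simp only [h1, h2, if_true, one_mul]
          have h3 := hF' u h1 _ h2
          have h4 : ∏ i, (if u i = x i then (1 : ℝ) else t)
              = t ^ (univ.filter (fun i => u i = !x i)).card := by
            rw [← Finset.prod_const, Finset.prod_filter]
            apply Finset.prod_congr rfl
            intro i _
            cases u i <;> cases x i <;> simp
          rw [h4, htdef, ← Real.exp_nat_mul]
          apply Real.exp_le_exp.mpr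
          nlinarith
        · simp only [h2, if_false, mul_zero]
          apply Finset.prod_nonneg
          intro i _
          split_ifs <;> linarith
      · simp only [h1, if_false, zero_mul]
        apply Finset.prod_nonneg
        intro i _
        split_ifs <;> linarith)
  have hs1 : ∑ u : Fin d → Bool, (if u ∈ F then (1 : ℝ) else 0) = F.card := by
    rw [Finset.sum_ite_mem, Finset.univ_inter, Finset.sum_const, nsmul_eq_mul, mul_one]
  have hs2 : ∑ x : Fin d → Bool, (if (fun i => !x i) ∈ F then Real.exp (2 * δ * (δ * d)) else 0)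
      = F.card * Real.exp (2 * δ * (δ * d)) := by
    let e : (Fin d → Bool) ≃ (Fin d → Bool) :=
      { toFun := fun x i => !x i
        invFun := fun x i => !x i
        left_inv := fun x => by funext i; simp
        right_inv := fun x => by funext i; simp }
    rw [← e.sum_comp]
    have : ∀ x : Fin d → Bool, (if (fun i => !(e x) i) ∈ F then Real.exp (2 * δ * (δ * d)) else 0)
        = (if x ∈ F then Real.exp (2 * δ * (δ * d)) else 0) := by
      intro x
      have : (fun i => !(e x) i) = x := by funext i; simp [e]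
      rw [this]
    rw [Finset.sum_congr rfl (fun x _ => this x), Finset.sum_ite_mem, Finset.univ_inter,
      Finset.sum_const, nsmul_eq_mul]
  rw [hs1, hs2] at key
  have hcosh : 2 + t + 1 / t ≤ 4 * Real.exp (δ ^ 2) := by
    have h1 : 2 + t + 1 / t = 4 * (Real.cosh δ) ^ 2 := by
      rw [Real.cosh_eq, htdef, two_mul, Real.exp_add, Real.exp_neg]
      have := Real.exp_pos δ
      field_simp
      ring
    rw [h1]
    have h2 : Real.cosh δ ≤ Real.exp (δ ^ 2 / 2) := Real.cosh_le_exp_half_sq δ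
    have h3 : 0 ≤ Real.cosh δ := (Real.cosh_pos δ).le
    have h4 : Real.cosh δ ^ 2 ≤ Real.exp (δ ^ 2 / 2) ^ 2 := by gcongr
    have h5 : Real.exp (δ ^ 2 / 2) ^ 2 = Real.exp (δ ^ 2) := by
      rw [← Real.exp_nat_mul]; congr 1; push_cast; ring
    linarith
  have h6 : (2 + t + 1 / t) ^ d ≤ (4 * Real.exp (δ ^ 2)) ^ d := by
    have : 0 ≤ 2 + t + 1 / t := by positivity
    gcongr
  have h7 : ((F.card : ℝ)) ^ 2 ≤ ((2 * Real.exp (-(δ ^ 2 / 2))) ^ d) ^ 2 := by
    have h8 : Real.exp (2 * δ * (δ * d)) = (Real.exp (2 * δ ^ 2)) ^ d := by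
      rw [← Real.exp_nat_mul]; congr 1; ring
    have h9 : (F.card : ℝ) * (F.card * Real.exp (2 * δ * (δ * d)))
        = (F.card : ℝ) ^ 2 * (Real.exp (2 * δ ^ 2)) ^ d := by rw [h8]; ring
    rw [h9] at key
    have h10 : (4 * Real.exp (δ ^ 2)) ^ d
        = ((2 * Real.exp (-(δ ^ 2 / 2))) ^ d) ^ 2 * (Real.exp (2 * δ ^ 2)) ^ d := by
      rw [← pow_mul, mul_comm d 2, pow_mul, ← mul_pow]
      congr 1
      rw [mul_pow, ← Real.exp_nat_mul, mul_assoc, ← Real.exp_add]
      norm_num
      ring_nf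
    have h11 : (F.card : ℝ) ^ 2 * (Real.exp (2 * δ ^ 2)) ^ d
        ≤ ((2 * Real.exp (-(δ ^ 2 / 2))) ^ d) ^ 2 * (Real.exp (2 * δ ^ 2)) ^ d := by
      rw [← h10]; exact key.trans h6
    exact le_of_mul_le_mul_right h11 (pow_pos (Real.exp_pos _) d)
  exact (pow_le_pow_iff_left₀ (Nat.cast_nonneg _) (by positivity) (by norm_num)).mp h7

/-! ## Definitions -/

/-- The index set `I` is `ε`-intersecting for the sets `A_1, …, A_m ⊆ S`, `|S| = n`. -/
def EpsIntersecting {n m : ℕ} (ε : ℝ) (A : Fin m → Finset (Fin n)) (I : Finset (Fin m)) : Prop :=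
  ∀ i ∈ I, ∀ j ∈ I, i ≠ j → ε * n < ((A i ∩ A j).card : ℝ)

/-- every sequence `A_1, …, A_m` of subsets of an `n`-set with `|A_i| > c n` for all `i` has an
`ε`-intersecting index set of size `k` -/
def Good (n m : ℕ) (c ε : ℝ) (k : ℕ) : Prop :=
  ∀ A : Fin m → Finset (Fin n), (∀ i, c * n < ((A i).card : ℝ)) →
    ∃ I : Finset (Fin m), I.card = k ∧ EpsIntersecting ε A I

/-- `f(n, m, c, ε)`: the largest `k` such that every such sequence has an `ε`-intersecting index
set of size `k` -/
noncomputable def f (n m : ℕ) (c ε : ℝ) : ℕ := sSup {k | Good n m c ε k}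

theorem Good.le_m {n m : ℕ} {c ε : ℝ} (hc : c < 1) (hn : 1 ≤ n) {k : ℕ} (h : Good n m c ε k) :
    k ≤ m := by
  obtain ⟨I, hI, -⟩ := h (fun _ => univ) (fun _ => by
    rw [Finset.card_univ, Fintype.card_fin]
    have : (1 : ℝ) ≤ n := by exact_mod_cast hn
    nlinarith)
  rw [← hI]
  exact (Finset.card_le_univ I).trans (by rw [Fintype.card_fin])

theorem le_f {n m : ℕ} {c ε : ℝ} (hc : c < 1) (hn : 1 ≤ n) {k : ℕ} (h : Good n m c ε k) :
    k ≤ f n m c ε :=
  le_csSup ⟨m, fun _ (h : Good n m c ε _) => h.le_m hc hn⟩ h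

theorem Good.zero (n m : ℕ) (c ε : ℝ) : Good n m c ε 0 :=
  fun _ _ => ⟨∅, rfl, fun i hi => absurd hi (Finset.notMem_empty i)⟩

/-- the maximum is attained -/
theorem f_good {n m : ℕ} {c ε : ℝ} (hc : c < 1) (hn : 1 ≤ n) : Good n m c ε (f n m c ε) :=
  Nat.sSup_mem ⟨0, Good.zero n m c ε⟩ ⟨m, fun _ (h : Good n m c ε _) => h.le_m hc hn⟩

/-! ## The lower bound (dependent random choice) -/

theorem exists_tuple {n m : ℕ} (hn : 1 ≤ n) (k : ℕ) (c ε : ℝ) (hc : 0 < c) (hε : 0 < ε)
    (hεc : ε < c) (A : Fin m → Finset (Fin n)) (hA : ∀ i, c * n < ((A i).card : ℝ)) :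
    ∃ I : Finset (Fin m),
      (m : ℝ) * c ^ k - (m : ℝ) * (min (m : ℝ) (2 ^ n)) * ε ^ k ≤ I.card ∧
      EpsIntersecting ε A I := by
  classical
  let D : Finset (Finset (Fin n)) := univ.image A
  have hD : (D.card : ℝ) ≤ min (m : ℝ) (2 ^ n) := by
    apply le_min
    · have : D.card ≤ m := by
        have := Finset.card_image_le (s := (univ : Finset (Fin m))) (f := A)
        rwa [Finset.card_univ, Fintype.card_fin] at this
      exact_mod_cast this
    · have : D.card ≤ 2 ^ n := by
        have := Finset.card_le_univ D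
        rwa [Fintype.card_finset, Fintype.card_fin] at this
      exact_mod_cast this
  let e := Fintype.equivFin (Finset (Fin n))
  -- `J x` and the bad pairs
  let J : (Fin k → Fin n) → Finset (Fin m) := fun x => univ.filter (fun i => ∀ l, x l ∈ A i)
  let Bad : Finset (Fin m × Finset (Fin n)) :=
    (univ ×ˢ D).filter (fun p => e (A p.1) < e p.2 ∧ ¬ (ε * n < ((A p.1 ∩ p.2).card : ℝ)))
  let B : (Fin k → Fin n) → Finset (Fin m × Finset (Fin n)) := fun x =>
    Bad.filter (fun p => ∀ l, x l ∈ A p.1 ∩ p.2)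
  have hcount : ∀ T : Finset (Fin n),
      ∑ x : Fin k → Fin n, (if ∀ l, x l ∈ T then (1 : ℝ) else 0) = (T.card : ℝ) ^ k := by
    intro T
    rw [Finset.sum_boole]
    have : (univ.filter (fun x : Fin k → Fin n => ∀ l, x l ∈ T)) = Fintype.piFinset (fun _ => T) := by
      ext x
      simp [Fintype.mem_piFinset]
    rw [this, Fintype.card_piFinset]
    simp
  have hJ : ∑ x, ((J x).card : ℝ) = ∑ i, ((A i).card : ℝ) ^ k := by
    have : ∀ x, ((J x).card : ℝ) = ∑ i, (if ∀ l, x l ∈ A i then (1 : ℝ) else 0) := by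
      intro x
      rw [Finset.sum_boole]
    rw [Finset.sum_congr rfl (fun x _ => this x), Finset.sum_comm]
    exact Finset.sum_congr rfl (fun i _ => hcount (A i))
  have hBsum : ∑ x, ((B x).card : ℝ) = ∑ p ∈ Bad, (((A p.1 ∩ p.2).card : ℝ)) ^ k := by
    have : ∀ x, ((B x).card : ℝ)
        = ∑ p ∈ Bad, (if ∀ l, x l ∈ A p.1 ∩ p.2 then (1 : ℝ) else 0) := by
      intro x
      rw [Finset.sum_boole]
    rw [Finset.sum_congr rfl (fun x _ => this x), Finset.sum_comm]
    exact Finset.sum_congr rfl (fun p _ => hcount _)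
  have hn' : (0 : ℝ) < n := by exact_mod_cast hn
  have h1 : (m : ℝ) * (c * n) ^ k ≤ ∑ x, ((J x).card : ℝ) := by
    rw [hJ]
    calc (m : ℝ) * (c * n) ^ k = ∑ _i : Fin m, (c * n) ^ k := by
          rw [Finset.sum_const, Finset.card_univ, Fintype.card_fin, nsmul_eq_mul]
      _ ≤ _ := Finset.sum_le_sum (fun i _ => by
          have := (hA i).le
          gcongr)
  have hBad : (Bad.card : ℝ) ≤ (m : ℝ) * min (m : ℝ) (2 ^ n) := by
    have h2 : Bad.card ≤ m * D.card := by
      have := Finset.card_filter_le (univ ×ˢ D)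
        (fun p : Fin m × Finset (Fin n) =>
          e (A p.1) < e p.2 ∧ ¬ (ε * n < ((A p.1 ∩ p.2).card : ℝ)))
      rwa [Finset.card_product, Finset.card_univ, Fintype.card_fin] at this
    have h3 : (Bad.card : ℝ) ≤ m * D.card := by exact_mod_cast h2
    exact h3.trans (mul_le_mul_of_nonneg_left hD (Nat.cast_nonneg m))
  have h2 : ∑ x, ((B x).card : ℝ) ≤ (m : ℝ) * min (m : ℝ) (2 ^ n) * (ε * n) ^ k := by
    rw [hBsum]
    calc ∑ p ∈ Bad, (((A p.1 ∩ p.2).card : ℝ)) ^ k ≤ ∑ _p ∈ Bad, (ε * n) ^ k :=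
          Finset.sum_le_sum (fun p hp => by
            have := not_lt.mp (Finset.mem_filter.mp hp).2.2
            gcongr)
      _ = Bad.card * (ε * n) ^ k := by rw [Finset.sum_const, nsmul_eq_mul]
      _ ≤ _ := by
          have : 0 ≤ (ε * n) ^ k := by positivity
          exact mul_le_mul_of_nonneg_right hBad this
  obtain ⟨x, hx⟩ : ∃ x : Fin k → Fin n,
      (m : ℝ) * c ^ k - (m : ℝ) * min (m : ℝ) (2 ^ n) * ε ^ k ≤ (J x).card - (B x).card := by
    by_contra hcon
    push Not at hcon
    have : Nonempty (Fin n) := ⟨⟨0, hn⟩⟩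
    have h3 : ∑ x : Fin k → Fin n, (((J x).card : ℝ) - (B x).card)
        < ∑ _x : Fin k → Fin n,
          ((m : ℝ) * c ^ k - (m : ℝ) * min (m : ℝ) (2 ^ n) * ε ^ k) :=
      Finset.sum_lt_sum_of_nonempty Finset.univ_nonempty (fun x _ => hcon x)
    rw [Finset.sum_sub_distrib, Finset.sum_const, Finset.card_univ, Fintype.card_pi_const,
      nsmul_eq_mul, Fintype.card_fin] at h3
    push_cast at h3
    rw [mul_pow] at h1 h2
    nlinarith
  -- delete the index of every bad pair
  refine ⟨(J x) \ ((B x).image Prod.fst), ?_, ?_⟩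
  · have h3 : ((J x).card : ℝ) ≤ ((J x) \ ((B x).image Prod.fst)).card + (B x).card := by
      have h4 := Finset.le_card_sdiff ((B x).image Prod.fst) (J x)
      have h5 : ((B x).image Prod.fst).card ≤ (B x).card := Finset.card_image_le
      have : (J x).card ≤ ((J x) \ ((B x).image Prod.fst)).card + (B x).card := by omega
      exact_mod_cast this
    linarith
  · intro i hi j hj hij
    rw [Finset.mem_sdiff] at hi hj
    by_contra hcon
    have hi' : ∀ l, x l ∈ A i := (Finset.mem_filter.mp hi.1).2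
    have hj' : ∀ l, x l ∈ A j := (Finset.mem_filter.mp hj.1).2
    have hne : A i ≠ A j := by
      intro h
      rw [h, Finset.inter_self] at hcon
      have := hA j
      have : ε * n < c * n := mul_lt_mul_of_pos_right hεc hn'
      exact hcon (by linarith)
    have hne' : e (A i) ≠ e (A j) := fun h => hne (e.injective h)
    rcases lt_or_gt_of_ne hne' with h | h
    · apply hi.2
      rw [Finset.mem_image]
      refine ⟨(i, A j), ?_, rfl⟩
      simp only [B, Bad, D, mem_filter, mem_univ, true_and, mem_product, mem_image, mem_inter]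
      exact ⟨⟨⟨j, rfl⟩, h, hcon⟩, fun l => ⟨hi' l, hj' l⟩⟩
    · apply hj.2
      rw [Finset.mem_image]
      refine ⟨(j, A i), ?_, rfl⟩
      simp only [B, Bad, D, mem_filter, mem_univ, true_and, mem_product, mem_image, mem_inter]
      rw [Finset.inter_comm] at hcon
      exact ⟨⟨⟨i, rfl⟩, h, hcon⟩, fun l => ⟨hj' l, hi' l⟩⟩

theorem EpsIntersecting.mono {n m : ℕ} {ε : ℝ} {A : Fin m → Finset (Fin n)}
    {I J : Finset (Fin m)} (h : EpsIntersecting ε A J) (hIJ : I ⊆ J) : EpsIntersecting ε A I :=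
  fun i hi j hj hij => h i (hIJ hi) j (hIJ hj) hij

theorem lower {n m : ℕ} (hn : 1 ≤ n) (hm : 1 ≤ m) (c ε : ℝ) (hc1 : c < 1) (hε : 0 < ε)
    (hεc : ε < c) :
    c / 2 * m * (2 * min (m : ℝ) (2 ^ n)) ^ (- (Real.log (1 / c) / Real.log (c / ε)))
      ≤ f n m c ε := by
  have hc : 0 < c := hε.trans hεc
  have hm' : (1 : ℝ) ≤ m := by exact_mod_cast hm
  have hL : 0 < Real.log (c / ε) := Real.log_pos (by rw [lt_div_iff₀ hε]; linarith)
  have hLc : 0 < Real.log (1 / c) := Real.log_pos (by rw [lt_div_iff₀ hc]; linarith)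
  set S : ℝ := 2 * min (m : ℝ) (2 ^ n) with hS
  have hS1 : 1 ≤ S := by
    have h1 : (1 : ℝ) ≤ 2 ^ n := one_le_pow₀ (by norm_num)
    have : 1 ≤ min (m : ℝ) (2 ^ n) := le_min hm' h1
    rw [hS]; linarith
  set k : ℕ := ⌈Real.log S / Real.log (c / ε)⌉₊ with hk
  have hk1 : Real.log S / Real.log (c / ε) ≤ k := Nat.le_ceil _
  have hk2 : (k : ℝ) < Real.log S / Real.log (c / ε) + 1 :=
    Nat.ceil_lt_add_one (div_nonneg (Real.log_nonneg hS1) hL.le)
  have hmk : S * ε ^ k ≤ c ^ k := by
    have h1 : S ≤ (c / ε) ^ k := by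
      rw [← Real.log_le_log_iff (by linarith) (by positivity), Real.log_pow]
      rwa [div_le_iff₀ hL] at hk1
    rw [div_pow, le_div_iff₀ (by positivity)] at h1
    exact h1
  have hck : c * S ^ (- (Real.log (1 / c) / Real.log (c / ε))) ≤ c ^ k := by
    have h1 : c * S ^ (- (Real.log (1 / c) / Real.log (c / ε)))
        = Real.exp (Real.log c * (Real.log S / Real.log (c / ε) + 1)) := by
      rw [Real.rpow_def_of_pos (by linarith)]
      conv_lhs => rw [← Real.exp_log hc]
      rw [← Real.exp_add]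
      congr 1
      rw [Real.exp_log hc, one_div, Real.log_inv]
      field_simp
      ring
    have h2 : c ^ k = Real.exp (Real.log c * k) := by
      rw [mul_comm, Real.exp_nat_mul, Real.exp_log hc]
    rw [h1, h2]
    apply Real.exp_le_exp.mpr
    have h3 : Real.log c ≤ 0 := Real.log_nonpos hc.le hc1.le
    nlinarith
  have hgoal : c / 2 * m * S ^ (- (Real.log (1 / c) / Real.log (c / ε))) ≤ m * c ^ k / 2 := by
    have : (m : ℝ) * (c * S ^ (- (Real.log (1 / c) / Real.log (c / ε)))) ≤ m * c ^ k :=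
      mul_le_mul_of_nonneg_left hck (by linarith)
    linarith
  have hgood : Good n m c ε ⌈(m : ℝ) * c ^ k / 2⌉₊ := by
    intro A hA
    obtain ⟨J, hJ, hJε⟩ := exists_tuple hn k c ε hc hε hεc A hA
    have h1 : (m : ℝ) * c ^ k / 2 ≤ J.card := by
      have : (m : ℝ) * (S * ε ^ k) ≤ m * c ^ k :=
        mul_le_mul_of_nonneg_left hmk (by linarith : (0 : ℝ) ≤ m)
      rw [hS] at this
      linarith
    have h2 : ⌈(m : ℝ) * c ^ k / 2⌉₊ ≤ J.card := Nat.ceil_le.mpr h1
    obtain ⟨I, hIJ, hI⟩ := Finset.exists_subset_card_eq h2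
    exact ⟨I, hI, hJε.mono hIJ⟩
  have h1 := le_f hc1 hn hgood
  calc _ ≤ (m : ℝ) * c ^ k / 2 := hgoal
    _ ≤ (⌈(m : ℝ) * c ^ k / 2⌉₊ : ℝ) := Nat.le_ceil _
    _ ≤ _ := by exact_mod_cast h1

/-! ## The upper bound -/

/-- the number of coordinates equal to `true` -/
def wt {D : ℕ} (u : Fin D → Bool) : ℕ := (univ.filter (fun i => u i = true)).card

theorem wt_not {D : ℕ} (u : Fin D → Bool) : wt u + wt (fun i => !u i) = D := by
  have h := Finset.card_filter_add_card_filter_not (s := (univ : Finset (Fin D)))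
    (p := fun i => u i = true)
  rw [Finset.card_univ, Fintype.card_fin] at h
  have key : wt (fun i => !u i) = (univ.filter (fun i => ¬ u i = true)).card := by
    unfold wt
    congr 1
    ext i
    simp
  rw [key]
  exact h

/-- one of the two complementary vectors `(0, w)`, `(1, ¬w)`, with at least half of its coordinates
equal to `true` -/
def big {d : ℕ} (w : Fin d → Bool) : Fin (d + 1) → Bool :=
  if d + 1 ≤ 2 * wt (Fin.cons false w : Fin (d + 1) → Bool) then Fin.cons false w
  else fun i => !(Fin.cons false w : Fin (d + 1) → Bool) i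

theorem big_wt {d : ℕ} (w : Fin d → Bool) : d + 1 ≤ 2 * wt (big w) := by
  unfold big
  split_ifs with h
  · exact h
  · have := wt_not (Fin.cons false w : Fin (d + 1) → Bool)
    omega

theorem big_inj {d : ℕ} : Function.Injective (big (d := d)) := by
  intro w w' h
  unfold big at h
  split_ifs at h with h1 h2 h2
  · exact (Fin.cons_injective2 (α := fun _ => Bool) h).2
  · have := congrFun h 0
    simp at this
  · have := congrFun h 0
    simp at this
  · funext i
    have := congrFun h i.succ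
    simpa using this

/-- the blow-up of a vector: `N` copies of every coordinate and `r` further points -/
def T (N D r : ℕ) (u : Fin D → Bool) : Finset ((Fin N × Fin D) ⊕ Fin r) :=
  univ.filter (fun x => Sum.elim (fun p => u p.2) (fun _ => true) x = true)

theorem T_card (N D r : ℕ) (u : Fin D → Bool) : (T N D r u).card = N * wt u + r := by
  unfold T wt
  rw [Finset.card_filter, Fintype.sum_sum_type, Fintype.sum_prod_type, Finset.card_filter]
  congr 1
  · change (∑ _x : Fin N, ∑ y : Fin D, (if u y = true then 1 else 0))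
      = N * ∑ i : Fin D, (if u i = true then 1 else 0)
    rw [Finset.sum_const, Finset.card_univ, Fintype.card_fin, smul_eq_mul]
  · simp

theorem T_inter (N D r : ℕ) (u v : Fin D → Bool) :
    T N D r u ∩ T N D r v = T N D r (fun i => u i && v i) := by
  ext x
  rcases x with p | q <;> simp [T]

theorem upper_core (d N r n m : ℕ) (hm : m ≤ 2 ^ d) (hn : n = N * (d + 1) + r) (hr : 1 ≤ r)
    (hrd : r ≤ d + 1) (c ε : ℝ) (hc : c ≤ 1 / 2) (hε : 0 < ε) (hε1 : ε ≤ 1)
    (hN : 2 / ε ≤ N) :
    (f n m c ε : ℝ) ≤ (2 * Real.exp (-((ε / 2) ^ 2 / 2))) ^ (d + 1) := by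
  classical
  have hcard : Fintype.card (Fin m) ≤ Fintype.card (Fin d → Bool) := by
    simpa using hm
  obtain ⟨w⟩ := Function.Embedding.nonempty_of_card_le hcard
  have he : Fintype.card ((Fin N × Fin (d + 1)) ⊕ Fin r) = n := by
    simp [hn]
  let e := Fintype.equivFinOfCardEq he
  let u : Fin m → (Fin (d + 1) → Bool) := fun i => big (w i)
  have hu : Function.Injective u := fun i j h => w.injective (big_inj h)
  let A : Fin m → Finset (Fin n) := fun i => (T N (d + 1) r (u i)).map e.toEmbedding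
  have hN0 : (0 : ℝ) < N := lt_of_lt_of_le (by positivity) hN
  have hr' : (1 : ℝ) ≤ r := by exact_mod_cast hr
  have hrd' : (r : ℝ) ≤ d + 1 := by exact_mod_cast hrd
  have hnR : (n : ℝ) = N * (d + 1) + r := by rw [hn]; push_cast; ring
  have hA : ∀ i, c * n < ((A i).card : ℝ) := by
    intro i
    have h1 : ((A i).card : ℝ) = N * wt (u i) + r := by
      simp only [A, Finset.card_map, T_card]
      push_cast
      ring
    have h2 : ((d : ℝ) + 1) ≤ 2 * wt (u i) := by exact_mod_cast big_wt (w i)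
    rw [h1, hnR]
    have h3 : (0 : ℝ) ≤ N * (d + 1) + r := by positivity
    nlinarith
  obtain ⟨I, hI, hIε⟩ := f_good (ε := ε) (m := m) (by linarith : c < 1) (by omega : 1 ≤ n) A hA
  have hF := family_bound (d + 1) (ε / 2) (by positivity) (by linarith) (I.image u) (by
    intro x hx y hy hxy
    obtain ⟨i, hi, rfl⟩ := Finset.mem_image.mp hx
    obtain ⟨j, hj, rfl⟩ := Finset.mem_image.mp hy
    have hij : i ≠ j := fun h => hxy (by rw [h])
    have h1 := hIε i hi j hj hij
    have h2 : ((A i ∩ A j).card : ℝ) = N * wt (fun b => u i b && u j b) + r := by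
      simp only [A]
      rw [← Finset.map_inter, Finset.card_map, T_inter, T_card]
      push_cast
      ring
    rw [h2, hnR] at h1
    have h3 : wt (fun b => u i b && u j b) ≤ (univ.filter (fun b => u i b = u j b)).card := by
      unfold wt
      apply Finset.card_le_card
      intro b hb
      simp only [mem_filter, mem_univ, true_and, Bool.and_eq_true] at hb ⊢
      rw [hb.1, hb.2]
    have h4 : (wt (fun b => u i b && u j b) : ℝ) ≤ (univ.filter (fun b => u i b = u j b)).card := by
      exact_mod_cast h3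
    refine le_trans ?_ h4
    push_cast
    have h5 : 2 ≤ N * ε := by
      rw [div_le_iff₀ hε] at hN
      exact hN
    -- ε (N D + r) < N a + r, r ≤ D, N ε ≥ 2
    by_contra hcon
    push Not at hcon
    have h6 : (N : ℝ) * wt (fun b => u i b && u j b) ≤ N * (ε / 2 * (d + 1)) :=
      mul_le_mul_of_nonneg_left hcon.le hN0.le
    have h7 : 0 ≤ ε * r := by positivity
    have h8 : (d + 1 : ℝ) * 2 ≤ (d + 1) * (N * ε) :=
      mul_le_mul_of_nonneg_left h5 (by positivity)
    nlinarith)
  rw [Finset.card_image_of_injective _ hu, hI] at hF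
  exact hF

theorem upper {n m : ℕ} (c ε : ℝ) (hc : c ≤ 1 / 2) (hε : 0 < ε) (hε1 : ε ≤ 1) (hm : 1 ≤ m)
    (hn : (4 / ε + 4) * (1 + Real.log m) ≤ n) :
    (f n m c ε : ℝ) ≤ 4 * (m : ℝ) ^ (1 - ε ^ 2 / 8) := by
  have hm' : (1 : ℝ) ≤ m := by exact_mod_cast hm
  have hlog : 0 ≤ Real.log m := Real.log_nonneg hm'
  set d : ℕ := Nat.clog 2 m with hd
  have hmd : m ≤ 2 ^ d := Nat.le_pow_clog (by norm_num) m
  have h2d : (2 : ℝ) ^ d ≤ 2 * m := by
    rcases Nat.lt_or_ge 1 m with h | h
    · have h1 : 2 ^ (d - 1) < m := Nat.pow_pred_clog_lt_self (by norm_num) h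
      have h2 : 0 < d := Nat.clog_pos (by norm_num) h
      have h3 : 2 ^ d = 2 * 2 ^ (d - 1) := by
        rw [← pow_succ', Nat.sub_add_cancel h2]
      have h4 : 2 ^ d ≤ 2 * m := by rw [h3]; omega
      exact_mod_cast h4
    · have h1 : m = 1 := by omega
      have h2 : d = 0 := by rw [hd, h1]; simp
      rw [h2, h1]; norm_num
  -- `log m ≤ d ≤ 1 + 2 log m`
  have hlogd : Real.log m ≤ d := by
    have h1 : Real.log m ≤ Real.log ((2 : ℝ) ^ d) :=
      Real.log_le_log (by linarith) (by exact_mod_cast hmd)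
    rw [Real.log_pow] at h1
    have h2 : Real.log 2 ≤ 1 := by have := Real.log_two_lt_d9; linarith
    have h3 : (0 : ℝ) ≤ d := Nat.cast_nonneg d
    nlinarith
  have hdlog : (d : ℝ) ≤ 1 + 2 * Real.log m := by
    have h1 : Real.log ((2 : ℝ) ^ d) ≤ Real.log (2 * m) :=
      Real.log_le_log (by positivity) h2d
    rw [Real.log_pow, Real.log_mul (by norm_num) (by linarith)] at h1
    have h2 : (1 : ℝ) / 2 ≤ Real.log 2 := by have := Real.log_two_gt_d9; linarith
    have h3 : (0 : ℝ) < Real.log 2 := by linarith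
    have h4 : ((d : ℝ) - 1) * Real.log 2 ≤ Real.log m := by linarith
    by_contra hcon
    push Not at hcon
    nlinarith
  have hn1 : 1 ≤ n := by
    have h1 : (1 : ℝ) ≤ n := by
      refine le_trans ?_ hn
      have : 0 ≤ 4 / ε := by positivity
      nlinarith
    exact_mod_cast h1
  -- division with remainder
  set N : ℕ := (n - 1) / (d + 1) with hNdef
  set r : ℕ := (n - 1) % (d + 1) + 1 with hrdef
  have hnr : n = N * (d + 1) + r := by
    have := Nat.div_add_mod (n - 1) (d + 1)
    rw [hNdef, hrdef, mul_comm]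
    omega
  have hr : 1 ≤ r := by omega
  have hrd : r ≤ d + 1 := by
    have : (n - 1) % (d + 1) < d + 1 := Nat.mod_lt (n - 1) (Nat.succ_pos d)
    omega
  have hN : 2 / ε ≤ N := by
    have h1 : (n : ℝ) = N * (d + 1) + r := by exact_mod_cast hnr
    have h2 : (r : ℝ) ≤ d + 1 := by exact_mod_cast hrd
    have h3 : (n : ℝ) ≤ (N + 1) * (d + 1) := by nlinarith
    have h4 : (4 / ε + 4) * (1 + Real.log m) ≤ (N + 1) * (2 * (1 + Real.log m)) := by
      refine (hn.trans h3).trans ?_
      apply mul_le_mul_of_nonneg_left _ (by positivity)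
      linarith
    have h5 : 4 / ε + 4 ≤ 2 * ((N : ℝ) + 1) := by
      have h6 : (4 / ε + 4) * (1 + Real.log m) ≤ (2 * ((N : ℝ) + 1)) * (1 + Real.log m) := by
        linarith
      exact le_of_mul_le_mul_right h6 (by linarith)
    have h6 : 4 / ε = 2 * (2 / ε) := by ring
    linarith
  have key := upper_core d N r n m hmd hnr hr hrd c ε hc hε hε1 hN
  refine key.trans ?_
  rw [mul_pow]
  have h1 : (2 : ℝ) ^ (d + 1) ≤ 4 * m := by
    rw [pow_succ]; linarith
  have h2 : Real.exp (-((ε / 2) ^ 2 / 2)) ^ (d + 1) ≤ (m : ℝ) ^ (-(ε ^ 2 / 8)) := by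
    rw [← Real.exp_nat_mul, Real.rpow_def_of_pos (by linarith)]
    apply Real.exp_le_exp.mpr
    push_cast
    have : 0 ≤ ε ^ 2 := by positivity
    nlinarith
  calc (2 : ℝ) ^ (d + 1) * Real.exp (-((ε / 2) ^ 2 / 2)) ^ (d + 1)
      ≤ (4 * m) * (m : ℝ) ^ (-(ε ^ 2 / 8)) := by
        apply mul_le_mul h1 h2 (by positivity) (by positivity)
    _ = 4 * (m : ℝ) ^ (1 - ε ^ 2 / 8) := by
        rw [sub_eq_add_neg, Real.rpow_add (by linarith), Real.rpow_one]
        ring

/-- repeating a bad sequence -/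
theorem blocks {n m M : ℕ} (hn : 1 ≤ n) (hM : 1 ≤ M) (c ε : ℝ) (hc1 : c < 1) :
    f n m c ε ≤ (m / M + 1) * f n M c ε := by
  classical
  have hbad : ¬ Good n M c ε (f n M c ε + 1) := by
    intro h
    have := le_f hc1 hn h
    omega
  unfold Good at hbad
  push Not at hbad
  obtain ⟨A, hA, hAbad⟩ := hbad
  let g : Fin m → Fin M := fun i => ⟨i.val % M, Nat.mod_lt _ hM⟩
  obtain ⟨I, hI, hIε⟩ := f_good (m := m) (ε := ε) hc1 hn (fun i => A (g i)) (fun i => hA (g i))
  have hT : EpsIntersecting ε A (I.image g) := by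
    intro a ha b hb hab
    obtain ⟨i, hi, rfl⟩ := Finset.mem_image.mp ha
    obtain ⟨j, hj, rfl⟩ := Finset.mem_image.mp hb
    exact hIε i hi j hj (fun h => hab (by rw [h]))
  have hTc : (I.image g).card ≤ f n M c ε := by
    by_contra hcon
    push Not at hcon
    obtain ⟨I', hI', hI'c⟩ := Finset.exists_subset_card_eq (Nat.succ_le_of_lt hcon)
    exact hAbad I' hI'c (hT.mono hI')
  have hfib : ∀ a ∈ I.image g, (I.filter (fun i => g i = a)).card ≤ m / M + 1 := by
    intro a _
    have h1 : (I.filter (fun i => g i = a)).card ≤ (Finset.range (m / M + 1)).card := by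
      apply Finset.card_le_card_of_injOn (fun i => i.val / M)
      · intro i _
        rw [Finset.coe_range, Set.mem_Iio]
        exact Nat.lt_succ_of_le (Nat.div_le_div_right i.isLt.le)
      · intro i hi j hj h
        rw [Finset.mem_coe, Finset.mem_filter] at hi hj
        have h2 : g i = g j := hi.2.trans hj.2.symm
        have h3 : i.val % M = j.val % M := congrArg Fin.val h2
        have h4 : i.val / M = j.val / M := h
        apply Fin.ext
        rw [← Nat.div_add_mod i.val M, ← Nat.div_add_mod j.val M, h3, h4]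
    rwa [Finset.card_range] at h1
  have := Finset.card_le_mul_card_image (s := I) (f := g) (m / M + 1) hfib
  rw [hI] at this
  exact this.trans (Nat.mul_le_mul_left _ hTc)

theorem upper_all {n m : ℕ} (hn : 1 ≤ n) (hm : 1 ≤ m) (c ε : ℝ) (hc : c ≤ 1 / 2) (hε : 0 < ε)
    (hε1 : ε ≤ 1) :
    (f n m c ε : ℝ) ≤ (4 / ε + 48) * m *
      (min (m : ℝ) (Real.exp (n / (4 / ε + 48)))) ^ (-(ε ^ 2 / 8)) := by
  set K : ℝ := 4 / ε + 48 with hK
  set a : ℝ := 4 / ε + 4 with ha
  have hε4 : 0 < 4 / ε := by positivity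
  have hKa : a ≤ K := by rw [hK, ha]; linarith
  have ha0 : 0 < a := by rw [ha]; linarith
  have hK0 : 0 < K := by linarith
  have hK48 : 48 ≤ K := by rw [hK]; linarith
  set γ : ℝ := ε ^ 2 / 8 with hγ
  have hγ0 : 0 < γ := by positivity
  have hγ1 : γ ≤ 1 := by rw [hγ]; nlinarith
  have hm' : (1 : ℝ) ≤ m := by exact_mod_cast hm
  have hn' : (1 : ℝ) ≤ n := by exact_mod_cast hn
  have hc1 : c < 1 := by linarith
  have hmin0 : 0 < min (m : ℝ) (Real.exp (n / K)) := lt_min (by linarith) (Real.exp_pos _)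
  by_cases h1 : a * (1 + Real.log m) ≤ n
  · -- first regime
    have h2 := upper (n := n) (m := m) c ε hc hε hε1 hm h1
    have h3 : (m : ℝ) ^ (-γ) ≤ (min (m : ℝ) (Real.exp (n / K))) ^ (-γ) :=
      Real.rpow_le_rpow_of_nonpos hmin0 (min_le_left _ _) (by linarith)
    have h4 : (m : ℝ) ^ (1 - γ) = m * (m : ℝ) ^ (-γ) := by
      rw [sub_eq_add_neg, Real.rpow_add (by linarith), Real.rpow_one]
    rw [h4] at h2
    have h5 : 0 ≤ (m : ℝ) ^ (-γ) := by positivity
    calc (f n m c ε : ℝ) ≤ 4 * (m * (m : ℝ) ^ (-γ)) := h2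
      _ ≤ K * (m * (m : ℝ) ^ (-γ)) := by
          apply mul_le_mul_of_nonneg_right (by linarith) (by positivity)
      _ ≤ K * (m * (min (m : ℝ) (Real.exp (n / K))) ^ (-γ)) := by gcongr
      _ = _ := by ring
  · push Not at h1
    -- `e^{-γ n / K} ≤ (min ..)^{-γ}`
    have hexp : Real.exp (-(γ * (n / K))) ≤ (min (m : ℝ) (Real.exp (n / K))) ^ (-γ) := by
      have h3 : (Real.exp (n / K)) ^ (-γ) ≤ (min (m : ℝ) (Real.exp (n / K))) ^ (-γ) :=
        Real.rpow_le_rpow_of_nonpos hmin0 (min_le_right _ _) (by linarith)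
      refine le_trans (le_of_eq ?_) h3
      rw [← Real.exp_mul]
      congr 1
      ring
    by_cases h2 : a ≤ n
    · -- second regime: many sets
      set y : ℝ := Real.exp (n / a - 1) with hy
      have hy1 : 1 ≤ y := by
        apply Real.one_le_exp
        have : 1 ≤ (n : ℝ) / a := by rw [le_div_iff₀ ha0]; linarith
        linarith
      set M : ℕ := ⌊y⌋₊ with hM
      have hM1 : 1 ≤ M := Nat.le_floor (by exact_mod_cast hy1)
      have hM1' : (1 : ℝ) ≤ M := by exact_mod_cast hM1
      have hMy : (M : ℝ) ≤ y := Nat.floor_le (by linarith)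
      have hyM : y < M + 1 := Nat.lt_floor_add_one y
      have hlogM : a * (1 + Real.log M) ≤ n := by
        have h3 : Real.log M ≤ n / a - 1 := by
          rw [← Real.log_exp ((n : ℝ) / a - 1)]
          exact Real.log_le_log (by linarith) hMy
        have h4 : 1 + Real.log M ≤ n / a := by linarith
        rw [le_div_iff₀ ha0] at h4
        linarith
      have hMm : (M : ℝ) ≤ m := by
        have h3 : (n : ℝ) / a - 1 < Real.log m := by
          have : (n : ℝ) / a < 1 + Real.log m := by
            rw [div_lt_iff₀ ha0]; linarith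
          linarith
        have h4 : y ≤ m := by
          rw [hy, ← Real.exp_log (by linarith : (0 : ℝ) < m)]
          exact Real.exp_le_exp.mpr h3.le
        linarith
      have h3 := upper (n := n) (m := M) c ε hc hε hε1 hM1 hlogM
      have h4 : (f n m c ε : ℝ) ≤ ((m / M : ℕ) + 1) * f n M c ε := by
        exact_mod_cast blocks hn hM1 c ε hc1
      have h5 : ((m / M : ℕ) : ℝ) ≤ m / M := Nat.cast_div_le
      have h6 : (1 : ℝ) ≤ m / M := by rw [le_div_iff₀ (by linarith)]; linarith
      have h7 : (f n m c ε : ℝ) ≤ (2 * (m / M)) * (4 * (M : ℝ) ^ (1 - γ)) := by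
        refine h4.trans ?_
        apply mul_le_mul (by linarith) h3 (Nat.cast_nonneg _) (by positivity)
      have h8 : (2 * ((m : ℝ) / M)) * (4 * (M : ℝ) ^ (1 - γ)) = 8 * m * (M : ℝ) ^ (-γ) := by
        rw [sub_eq_add_neg, Real.rpow_add (by linarith), Real.rpow_one]
        field_simp
        ring
      rw [h8] at h7
      -- `M ≥ y / 2 ≥ e^{n/a} / 6`
      have h9 : Real.exp (n / a) / 6 ≤ M := by
        have h10 : Real.exp (n / a) = y * Real.exp 1 := by
          rw [hy, ← Real.exp_add]; congr 1; ring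
        have h11 : Real.exp 1 < 3 := by have := Real.exp_one_lt_d9; linarith
        rw [h10]
        nlinarith
      have h10 : (M : ℝ) ^ (-γ) ≤ (Real.exp (n / a) / 6) ^ (-γ) :=
        Real.rpow_le_rpow_of_nonpos (by positivity) h9 (by linarith)
      have h11 : (Real.exp (n / a) / 6) ^ (-γ) ≤ 6 * Real.exp (-(γ * (n / K))) := by
        rw [Real.div_rpow (Real.exp_pos _).le (by norm_num), Real.rpow_neg (by norm_num : (0:ℝ) ≤ 6),
          div_inv_eq_mul, ← Real.exp_mul, mul_comm]
        have h12 : (6 : ℝ) ^ γ ≤ 6 := by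
          have := Real.rpow_le_rpow_of_exponent_le (by norm_num : (1 : ℝ) ≤ 6) hγ1
          rwa [Real.rpow_one] at this
        have h13 : Real.exp ((n : ℝ) / a * (-γ)) ≤ Real.exp (-(γ * (n / K))) := by
          apply Real.exp_le_exp.mpr
          have : (n : ℝ) / K ≤ n / a := by gcongr
          nlinarith
        exact mul_le_mul h12 h13 (Real.exp_pos _).le (by norm_num)
      have h14 : (f n m c ε : ℝ) ≤ 48 * m * Real.exp (-(γ * (n / K))) := by
        calc (f n m c ε : ℝ) ≤ 8 * m * (M : ℝ) ^ (-γ) := h7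
          _ ≤ 8 * m * (6 * Real.exp (-(γ * (n / K)))) := by
              apply mul_le_mul_of_nonneg_left (h10.trans h11) (by positivity)
          _ = _ := by ring
      calc (f n m c ε : ℝ) ≤ 48 * m * Real.exp (-(γ * (n / K))) := h14
        _ ≤ K * m * (min (m : ℝ) (Real.exp (n / K))) ^ (-γ) := by
            apply mul_le_mul _ hexp (Real.exp_pos _).le (by positivity)
            apply mul_le_mul_of_nonneg_right hK48 (by linarith)
    · -- tiny `n`
      push Not at h2
      have h3 : (f n m c ε : ℝ) ≤ m := by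
        exact_mod_cast (f_good (ε := ε) (m := m) hc1 hn).le_m hc1 hn
      have h4 : (1 : ℝ) / 3 ≤ Real.exp (-(γ * (n / K))) := by
        have h5 : (n : ℝ) / K ≤ 1 := by rw [div_le_iff₀ hK0]; linarith
        have h6 : γ * (n / K) ≤ 1 := by
          have : 0 ≤ (n : ℝ) / K := by positivity
          nlinarith
        have h7 : Real.exp (-1) ≤ Real.exp (-(γ * (n / K))) :=
          Real.exp_le_exp.mpr (by linarith)
        have h8 : (1 : ℝ) / 3 ≤ Real.exp (-1) := by
          rw [Real.exp_neg, one_div]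
          have h11 : Real.exp 1 < 3 := by have := Real.exp_one_lt_d9; linarith
          exact inv_anti₀ (Real.exp_pos _) h11.le
        linarith
      calc (f n m c ε : ℝ) ≤ m := h3
        _ = 3 * m * (1 / 3) := by ring
        _ ≤ K * m * (min (m : ℝ) (Real.exp (n / K))) ^ (-γ) := by
            apply mul_le_mul _ (h4.trans hexp) (by norm_num) (by positivity)
            apply mul_le_mul_of_nonneg_right (by linarith) (by linarith)

/-- Bounds for `f(n, m, c, ε)` for all `n` and `m`, tight up to the value of a small exponent, which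
settle the two questions asked. -/
theorem result :
    -- (1) lower bound, for all `n, m ≥ 1` and `0 < ε < c < 1`
    (∀ c ε : ℝ, 0 < ε → ε < c → c < 1 → ∀ n m : ℕ, 1 ≤ n → 1 ≤ m →
      c / 2 * m * (2 * min (m : ℝ) (2 ^ n)) ^ (-(Real.log (1 / c) / Real.log (c / ε)))
        ≤ f n m c ε) ∧
    -- (2) upper bound, for all `n, m ≥ 1`, `0 < c ≤ 1/2` and `0 < ε ≤ 1`
    (∀ c ε : ℝ, 0 < c → c ≤ 1 / 2 → 0 < ε → ε ≤ 1 → ∀ n m : ℕ, 1 ≤ n → 1 ≤ m →
      (f n m c ε : ℝ) ≤ (4 / ε + 48) * m *
        (min (m : ℝ) (Real.exp (n / (4 / ε + 48)))) ^ (-(ε ^ 2 / 8))) ∧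
    -- (3) the conjecture `f(n, n, c, ε) > η √n`, for all `0 < c ≤ 1/2` and `ε ≤ c³`
    (∀ c : ℝ, 0 < c → c ≤ 1 / 2 → ∀ ε : ℝ, 0 < ε → ε ≤ c ^ 3 →
      ∃ η : ℝ, 0 < η ∧ ∀ n : ℕ, 1 ≤ n → η * Real.sqrt n < f n n c ε) ∧
    -- (4) the bound `f(n, m, c, ε) ≥ η m` for `m < n` fails
    (∀ c ε : ℝ, 0 < c → c ≤ 1 / 2 → 0 < ε → ε ≤ 1 →
      ¬ ∃ η : ℝ, 0 < η ∧ ∀ n m : ℕ, 1 ≤ m → m < n → η * m ≤ f n m c ε) := by
  refine ⟨fun c ε hε hεc hc1 n m hn hm => lower hn hm c ε hc1 hε hεc,
    fun c ε _ hc hε hε1 n m hn hm => upper_all hn hm c ε hc hε hε1, ?_, ?_⟩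
  · intro c hc hc2 ε hε hεc
    have hc1 : c < 1 := by linarith
    have hεc' : ε < c := by
      have : c ^ 3 < c := by nlinarith [mul_pos hc hc]
      linarith
    refine ⟨c / 8, by positivity, fun n hn => ?_⟩
    have hn' : (1 : ℝ) ≤ n := by exact_mod_cast hn
    have h1 := lower hn hn c ε hc1 hε hεc'
    have hmin : min (n : ℝ) (2 ^ n) = n :=
      min_eq_left (by exact_mod_cast (Nat.lt_two_pow_self (n := n)).le)
    rw [hmin] at h1
    refine lt_of_lt_of_le ?_ h1
    have hLc : 0 < Real.log (1 / c) := Real.log_pos (by rw [lt_div_iff₀ hc]; linarith)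
    have hL : 2 * Real.log (1 / c) ≤ Real.log (c / ε) := by
      have h2 : Real.log ((1 / c) ^ 2) ≤ Real.log (c / ε) := by
        apply Real.log_le_log (by positivity)
        rw [div_pow, one_pow, div_le_div_iff₀ (by positivity) hε]
        nlinarith
      rw [Real.log_pow] at h2
      exact_mod_cast h2
    have hθ : Real.log (1 / c) / Real.log (c / ε) ≤ 1 / 2 := by
      rw [div_le_div_iff₀ (by linarith) (by norm_num)]
      linarith
    have h4 : 0 < Real.sqrt n := Real.sqrt_pos.mpr (by linarith)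
    have h3 : 1 / (2 * Real.sqrt n)
        ≤ (2 * (n : ℝ)) ^ (-(Real.log (1 / c) / Real.log (c / ε))) := by
      have h5 : (2 * (n : ℝ)) ^ (-(1 / 2 : ℝ))
          ≤ (2 * (n : ℝ)) ^ (-(Real.log (1 / c) / Real.log (c / ε))) :=
        Real.rpow_le_rpow_of_exponent_le (by linarith) (by linarith)
      refine le_trans ?_ h5
      rw [Real.rpow_neg (by linarith), ← Real.sqrt_eq_rpow, one_div]
      apply inv_anti₀ (Real.sqrt_pos.mpr (by linarith))
      rw [Real.sqrt_mul (by norm_num)]
      have : Real.sqrt 2 ≤ 2 := by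
        rw [Real.sqrt_le_left (by norm_num)]; norm_num
      nlinarith
    have h6 : Real.sqrt n * Real.sqrt n = n := Real.mul_self_sqrt (by linarith)
    have h7 : c / 2 * n * (1 / (2 * Real.sqrt n)) = c / 4 * Real.sqrt n := by
      calc c / 2 * n * (1 / (2 * Real.sqrt n))
          = c / 2 * (Real.sqrt n * Real.sqrt n) * (1 / (2 * Real.sqrt n)) := by rw [h6]
        _ = c / 4 * Real.sqrt n := by
            generalize Real.sqrt n = s at h4
            field_simp
            ring
    have h8 : c / 2 * n * (1 / (2 * Real.sqrt n))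
        ≤ c / 2 * n * (2 * (n : ℝ)) ^ (-(Real.log (1 / c) / Real.log (c / ε))) :=
      mul_le_mul_of_nonneg_left h3 (by positivity)
    nlinarith
  · rintro c ε hc hc2 hε hε1 ⟨η, hη, H⟩
    -- for large `m` and `n = m + 1` the upper bound applies
    have hγ : 0 < ε ^ 2 / 8 := by positivity
    have e1 : ∀ᶠ m : ℕ in Filter.atTop, (4 / ε + 4) * (1 + Real.log m) ≤ ((m + 1 : ℕ) : ℝ) := by
      have h1 : Filter.Tendsto (fun x : ℝ => (1 + Real.log x) / x) Filter.atTop (nhds 0) := by
        have h2 : Filter.Tendsto (fun x : ℝ => 1 / x + Real.log x / x) Filter.atTop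
            (nhds (0 + 0)) := by
          apply Filter.Tendsto.add
          · exact tendsto_const_nhds.div_atTop Filter.tendsto_id
          · exact Real.isLittleO_log_id_atTop.tendsto_div_nhds_zero
        rw [add_zero] at h2
        refine h2.congr (fun x => ?_)
        rw [add_div]
      have h3 : ∀ᶠ x : ℝ in Filter.atTop, (1 + Real.log x) / x < 1 / (4 / ε + 4) :=
        (h1.eventually (gt_mem_nhds (by positivity)))
      have h4 := (tendsto_natCast_atTop_atTop (R := ℝ)).eventually h3
      filter_upwards [h4, Filter.eventually_gt_atTop 0] with m hm hm0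
      have hm0' : (0 : ℝ) < m := by exact_mod_cast hm0
      rw [div_lt_div_iff₀ hm0' (by positivity)] at hm
      push_cast
      linarith
    have e2 : ∀ᶠ m : ℕ in Filter.atTop, 4 / η < (m : ℝ) ^ (ε ^ 2 / 8) := by
      have h1 := tendsto_rpow_atTop hγ
      have h2 := (h1.comp (tendsto_natCast_atTop_atTop (R := ℝ))).eventually_gt_atTop (4 / η)
      exact h2
    obtain ⟨m, ⟨h1, h2⟩, h3⟩ := ((e1.and e2).and (Filter.eventually_ge_atTop 1)).exists
    have hm' : (1 : ℝ) ≤ m := by exact_mod_cast h3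
    have h4 := upper (n := m + 1) (m := m) c ε hc2 hε hε1 h3 h1
    have h5 := H (m + 1) m h3 (Nat.lt_succ_self m)
    have h6 : η * m ≤ 4 * (m : ℝ) ^ (1 - ε ^ 2 / 8) := h5.trans h4
    rw [Real.rpow_sub (by linarith), Real.rpow_one] at h6
    have hpos : 0 < (m : ℝ) ^ (ε ^ 2 / 8) := Real.rpow_pos_of_pos (by linarith) _
    rw [← mul_div_assoc, le_div_iff₀ hpos] at h6
    rw [div_lt_iff₀ hη] at h2
    nlinarith

end Pool.Agent.Results.MP_cecf76_co.PowerBounds
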